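import Pool.Agent.helper73.SPV.Spec

/-! # Project sp (MP_a2a22c_al), row sp:SPH -/

set_option autoImplicit false

namespace Pool.Agent.SPV

open Matrix Module Pool.Agent.SHL Pool.Agent.H48SL

private theorem SPH_hi (hHA : SHL.HA_stmt) {G : Type} [Group G] (H : Subgroup G) (m : ℕ) :
    ∀ d : ℕ, Hi (m + d) H → Hi m H := by
  intro d
  induction d with
  | zero => exact fun h => h
  | succ d ih =>
    intro h
    exact ih ((hHA G).2.1 (m + d) H h)

/-- finite index: finitely many cosets -/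
private theorem SPH_cos {G : Type} [Group G] (S P : Subgroup G)
    (h : S.relIndex P ≠ 0) : ∃ F : Set G, F.Finite ∧ ∀ x ∈ P, ∃ f ∈ F, ∃ s ∈ S, x = f * s := by
  classical
  have hfi : (S.subgroupOf P).FiniteIndex := ⟨h⟩
  have hfin : Finite (P ⧸ S.subgroupOf P) := Subgroup.finite_quotient_of_finiteIndex
  refine ⟨Set.range fun q : P ⧸ S.subgroupOf P => ((Quotient.out q : P) : G),
    Set.finite_range _, fun x hx => ?_⟩
  obtain ⟨s, hs⟩ := QuotientGroup.mk_out_eq_mul (S.subgroupOf P) (⟨x, hx⟩ : P)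
  refine ⟨_, ⟨((⟨x, hx⟩ : P) : P ⧸ S.subgroupOf P), rfl⟩, (((s : P) : G))⁻¹, ?_, ?_⟩
  · exact S.inv_mem (Subgroup.mem_subgroupOf.1 s.2)
  · show x = (((Quotient.out ((⟨x, hx⟩ : P) : P ⧸ S.subgroupOf P) : P)) : G) * (((s : P) : G))⁻¹
    rw [hs]
    simp

/-- products of several subgroups -/
private theorem SPH_prod (hPBA : PBA_stmt) {G : Type} [Group G] : ∀ (k : ℕ) (P : Fin k → Subgroup G)
    (N : Fin k → ℕ), (∀ i, PB (N i) (P i : Set G)) →
    PB (∑ i, N i) {x : G | ∃ a : Fin k → G, (∀ i, a i ∈ P i) ∧ x = (List.ofFn a).prod} := by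
  intro k
  induction k with
  | zero =>
    intro P N _
    rw [Fin.sum_univ_zero]
    refine Set.Finite.subset (Set.finite_singleton (1 : G)) ?_
    rintro x ⟨a, _, hx⟩
    rw [hx, List.ofFn_zero, List.prod_nil]
    exact Set.mem_singleton _
  | succ k ih =>
    intro P N hN
    rw [Fin.sum_univ_succ]
    have h1 := ih (fun i => P i.succ) (fun i => N i.succ) (fun i => hN i.succ)
    refine (hPBA G).1 _ _ _ ?_ ((hPBA G).2.2.1 _ _ _ _ (hN 0) h1)
    rintro x ⟨a, ha, hx⟩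
    refine ⟨a 0, ha 0, (List.ofFn fun i : Fin k => a i.succ).prod,
      ⟨fun i => a i.succ, fun i => ha i.succ, rfl⟩, ?_⟩
    rw [hx, List.ofFn_succ, List.prod_cons]

theorem SPH (hHA : SHL.HA_stmt) (hPBA : PBA_stmt) (hCNT : CNT_stmt) (hLOW : LOW_stmt)
    (hXSL : XSL_stmt) : SPH_stmt := by
  intro n hn H hPD hS k P hP hV hprod
  by_contra hk
  rw [not_lt] at hk
  choose S hSP hSs hSi using hV
  choose N hNB hNH using fun i => hXSL n (S i) (hSs i)
  have hNle : ∀ i, N i ≤ n - 1 := by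
    intro i
    by_contra hcon
    have h1 : n ≤ N i := by omega
    obtain ⟨d, hd⟩ := Nat.exists_eq_add_of_le h1
    have h2 := hNH i
    rw [hd] at h2
    exact hS (S i) ((hSP i).trans (hP i)) (hSs i) (SPH_hi hHA (S i) n d h2)
  have hPB : ∀ i, PB (N i) (P i : Set (SLn n)) := by
    intro i
    obtain ⟨F, hF, hFS⟩ := SPH_cos (S i) (P i) (hSi i)
    refine (hPBA (SLn n)).1 _ _ _ ?_ ((hPBA (SLn n)).2.1 _ F _ hF (hNB i))
    intro x hx
    obtain ⟨f, hf, s, hs, hxe⟩ := hFS x hx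
    exact ⟨f, hf, s, hs, hxe⟩
  have hH : PB (∑ i, N i) (H : Set (SLn n)) := by
    refine (hPBA (SLn n)).1 _ _ _ ?_ (SPH_prod hPBA k P N hPB)
    intro h hh
    exact hprod h hh
  obtain ⟨C, hC⟩ := hCNT n 2 Nat.prime_two _ _ hH
  have hD : ∑ i, N i ≤ n * (n - 1) := by
    have h1 : ∑ i, N i ≤ ∑ _i : Fin k, (n - 1) := Finset.sum_le_sum fun i _ => hNle i
    rw [Finset.sum_const, Finset.card_univ, Fintype.card_fin, smul_eq_mul] at h1
    exact h1.trans (Nat.mul_le_mul_right _ hk)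
  have h1 : (2 ^ (n * n - 1)) ^ C ≤ C * (2 ^ C) ^ (∑ i, N i) :=
    (hLOW n 2 (by omega) Nat.prime_two H hPD C).trans (hC C)
  have h2 : C * (2 ^ C) ^ (∑ i, N i) ≤ C * (2 ^ C) ^ (n * (n - 1)) :=
    Nat.mul_le_mul_left _ (Nat.pow_le_pow_right (Nat.one_le_two_pow) hD)
  have h3 : 2 ^ C * (2 ^ C) ^ (n * (n - 1)) ≤ (2 ^ (n * n - 1)) ^ C := by
    rw [← pow_succ', ← pow_mul, ← pow_mul]
    refine Nat.pow_le_pow_right (by norm_num) ?_
    rw [mul_comm C]
    refine Nat.mul_le_mul_right _ ?_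
    obtain ⟨r, rfl⟩ := Nat.exists_eq_add_of_le hn
    have e1 : 3 + r - 1 = 2 + r := by omega
    rw [e1]
    have e2 : (3 + r) * (3 + r) = (3 + r) * (2 + r) + (3 + r) := by ring
    omega
  have h4 : 2 ^ C * (2 ^ C) ^ (n * (n - 1)) ≤ C * (2 ^ C) ^ (n * (n - 1)) :=
    h3.trans (h1.trans h2)
  have h5 : 2 ^ C ≤ C := Nat.le_of_mul_le_mul_right h4 (by positivity)
  exact absurd h5 (not_le.2 Nat.lt_two_pow_self)

end Pool.Agent.SPV
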